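import Mathlib
import Pool.Agent.H99.ADJ.Base

/-!
# Project ADJ, module DEC: polynomial decay of the one-point function
-/

set_option autoImplicit false

open MeasureTheory ProbabilityTheory Set Filter Topology
open scoped NNReal ENNReal NNRat

namespace Pool.ADJ

/-- monotonicity of linkedness to infinity -/
theorem dec_linkedInf_mono {K K' : Set Pl} (hK : K ⊆ K') {z : Pl} (h : LinkedInf K' z) :
    LinkedInf K z := by
  have hc : ∀ u : Pl, connectedComponentIn K'ᶜ u ⊆ connectedComponentIn Kᶜ u := by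
    intro u
    exact connectedComponentIn_mono u (Set.compl_subset_compl.mpr hK)
  obtain ⟨y, hy, hub, hl⟩ := h
  refine ⟨y, fun hyK => hy (hK hyK), ?_, ?_⟩
  · intro hb
    exact hub (hb.subset (hc y))
  · have hm : ∀ u v : Pl, Step K' u v → Step K u v := by
      rintro u v ⟨hu, hv, hne⟩
      refine ⟨fun h => hu (hK h), fun h => hv (hK h), ?_⟩
      exact hne.mono (Set.inter_subset_inter (closure_mono (hc u)) (closure_mono (hc v)))
    have hl' : Relation.ReflTransGen (Step K') z y := hl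
    show Relation.ReflTransGen (Step K) z y
    exact Relation.ReflTransGen.mono hm z y hl'

theorem dec_not_mem {K : Set Pl} {z : Pl} (h : LinkedInf K z) : z ∉ K := by
  obtain ⟨y, hy, -, hl⟩ := h
  rcases Relation.ReflTransGen.cases_head hl with h | ⟨c, hc, -⟩
  · rw [h]; exact hy
  · exact hc.1

theorem dec_tr_mono {Ω : Type} (B : ℝ → Ω → Pl) (ω : Ω) {a b c d : ℝ} (h1 : a ≤ c) (h2 : d ≤ b) :
    tr B ω c d ⊆ tr B ω a b :=
  Set.image_mono (Set.Icc_subset_Icc h1 h2)

theorem dec_thm : S_DEC := by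
  intro Ω _ μ B hB hI
  obtain ⟨L, hL, C, hC, h⟩ := hI
  have hlL : 0 < Real.log L := Real.log_pos hL
  have hl2 : 0 < Real.log 2 := Real.log_pos one_lt_two
  refine ⟨4 * C + 1, Real.log 2 / Real.log L, by positivity, div_pos hl2 hlL, ?_⟩
  intro x
  by_cases hx : x = 0
  · have he : {ω | LinkedInf (tr B ω 0 1) x} = ∅ := by
      ext ω
      rw [Set.mem_empty_iff_false, iff_false]
      intro hω
      have hω : LinkedInf (tr B ω 0 1) x := hω
      refine dec_not_mem hω ?_
      rw [hx]
      exact ⟨0, ⟨le_rfl, zero_le_one⟩, hB.zero ω⟩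
    rw [he, measure_empty]
    exact zero_le
  · have hnx : 0 < ‖x‖ := norm_pos_iff.mpr hx
    obtain ⟨s, hs⟩ : ∃ s : ℝ, s = ‖x‖ ^ 2 := ⟨_, rfl⟩
    have hs0 : 0 < s := by rw [hs]; positivity
    rw [← hs]
    obtain ⟨t, ht⟩ : ∃ t : ℝ, t = -Real.log s / Real.log L := ⟨_, rfl⟩
    obtain ⟨n, hn⟩ : ∃ n : ℕ, n = ⌊t⌋₊ := ⟨_, rfl⟩
    have hLt : L ^ t = s⁻¹ := by
      rw [Real.rpow_def_of_pos (by linarith), ht]
      rw [show Real.log L * (-Real.log s / Real.log L) = -Real.log s by field_simp]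
      rw [Real.exp_neg, Real.exp_log hs0]
    have h2t : (2 : ℝ) ^ (-t) = s ^ (Real.log 2 / Real.log L) := by
      rw [Real.rpow_def_of_pos (by norm_num), Real.rpow_def_of_pos hs0, ht]
      congr 1
      field_simp
    have hn1 : t < n + 1 := by rw [hn]; exact Nat.lt_floor_add_one t
    have h2n : (1 : ℝ) / 2 ^ n ≤ 2 * s ^ (Real.log 2 / Real.log L) := by
      rw [← h2t]
      have h3 : (2 : ℝ) ^ (-((n : ℝ) + 1)) ≤ 2 ^ (-t) :=
        Real.rpow_le_rpow_of_exponent_le (by norm_num) (by linarith)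
      have h4 : (2 : ℝ) ^ (-((n : ℝ) + 1)) = 1 / 2 ^ n / 2 := by
        rw [Real.rpow_neg (by norm_num), Real.rpow_add (by norm_num), Real.rpow_natCast,
          Real.rpow_one]
        field_simp
      rw [h4] at h3
      linarith
    have hsub : {ω | LinkedInf (tr B ω 0 1) x} ⊆
        {ω | ∀ j < n, LinkedInf (tr B ω (L ^ j * s) (L ^ (j + 1) * s)) x} := by
      intro ω hω j hj
      refine dec_linkedInf_mono (dec_tr_mono B ω ?_ ?_) hω
      · positivity
      · have hn0 : 0 < n := by omega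
        have ht0 : 0 ≤ t := by
          by_contra hneg
          push Not at hneg
          rw [hn, Nat.floor_of_nonpos hneg.le] at hn0
          exact absurd hn0 (lt_irrefl 0)
        have hnt : (n : ℝ) ≤ t := by rw [hn]; exact Nat.floor_le ht0
        have h5 : L ^ (j + 1) ≤ L ^ n := pow_le_pow_right₀ hL.le (by omega)
        have h6 : L ^ n ≤ s⁻¹ := by
          rw [← hLt, ← Real.rpow_natCast]
          exact Real.rpow_le_rpow_of_exponent_le hL.le hnt
        calc L ^ (j + 1) * s ≤ s⁻¹ * s := by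
              exact mul_le_mul_of_nonneg_right (h5.trans h6) hs0.le
          _ = 1 := inv_mul_cancel₀ hs0.ne'
    refine (measure_mono hsub).trans ((h x s hs0 n).trans ?_)
    apply ENNReal.ofReal_le_ofReal
    rw [← hs, div_self hs0.ne']
    have h7 : C * (1 + 1) / 2 ^ n = 2 * C * (1 / 2 ^ n) := by ring
    rw [h7]
    have h8 : 0 ≤ s ^ (Real.log 2 / Real.log L) := Real.rpow_nonneg hs0.le _
    calc 2 * C * (1 / 2 ^ n) ≤ 2 * C * (2 * s ^ (Real.log 2 / Real.log L)) :=
          mul_le_mul_of_nonneg_left h2n (by positivity)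
      _ ≤ (4 * C + 1) * s ^ (Real.log 2 / Real.log L) := by nlinarith

end Pool.ADJ
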